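import Pool.Agent.U60.PY.Poly

set_option autoImplicit false

namespace Pool.Agent.Results.MP_0f91f8_co.AutomataAndPolynomials

open Pool.Agent.U60.PY

/-- Let `b ≥ 2`, let `f` be a `b`-automatic function of finitely many natural numbers, and let
`P i` be arbitrary polynomials with integer coefficients. The colouring
`n ↦ f (|P 1 (n)|, ..., |P k (n)|)` has monochromatic Pythagorean triples, with `x` as large and
`y / x` as large as we please. -/
theorem result {ι C : Type*} [Finite ι] {b : ℕ} (hb : 2 ≤ b) (f : (ι → ℕ) → C)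
    (hf : Automatic b f) (P : ι → Polynomial ℤ) (r : ℕ) :
    ∃ x y z : ℕ, r < x ∧ r * x ≤ y ∧ x ^ 2 + y ^ 2 = z ^ 2 ∧
      f (fun i => ((P i).eval (x : ℤ)).natAbs) = f (fun i => ((P i).eval (y : ℤ)).natAbs) ∧
      f (fun i => ((P i).eval (y : ℤ)).natAbs) = f (fun i => ((P i).eval (z : ℤ)).natAbs) :=
  main_poly hb f hf P r

end Pool.Agent.Results.MP_0f91f8_co.AutomataAndPolynomials
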