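import Pool.Agent.U60.NU.Kernel

set_option autoImplicit false

namespace Pool.Agent.Results.MP_0f91f8_co.BoundedKernelWidth

open Pool.Agent.U60.NU

/-- Let `b ≥ 2` and let `c` be a colouring of the natural numbers such that for every `ℓ` there are
at most `W` different functions among the subsequences `m ↦ c (b ^ ℓ m + n)`, `n < b ^ ℓ` (the
number of the different subsequences may not grow with `ℓ`, but those of different levels are
unrelated). Then there is a monochromatic Pythagorean triple `x, y, z` with `x` as large and
`y / x` as large as we please. -/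
theorem result {C : Type*} {b W : ℕ} (hb : 2 ≤ b) (c : ℕ → C)
    (h : ∀ ℓ, (level b c ℓ).ncard ≤ W) (r : ℕ) : ∃ x y z : ℕ,
      r < x ∧ r * x ≤ y ∧ x ^ 2 + y ^ 2 = z ^ 2 ∧ c x = c y ∧ c y = c z :=
  main hb c h r

end Pool.Agent.Results.MP_0f91f8_co.BoundedKernelWidth
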