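import Pool.Agent.U60.ZK.Auto

set_option autoImplicit false

namespace Pool.Agent.Results.MP_0f91f8_co.FibonacciAutomatic

open Pool.Agent.U60.ZK

/-- Every Fibonacci-automatic colouring has monochromatic Pythagorean triples: let the colour of
`n` be computed by a finite automaton (states `S`, transitions `δ`, initial state `q₀`, output `τ`)
which reads the Zeckendorf representation of `n`, the most significant digit first. Then there is a
monochromatic Pythagorean triple `x, y, z` with `x` as large and `y / x` as large as we please. -/
theorem result {S C : Type*} [Finite S] (δ : S → Bool → S) (q₀ : S) (τ : S → C) (r : ℕ) :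
    ∃ x y z : ℕ, r < x ∧ r * x ≤ y ∧ x ^ 2 + y ^ 2 = z ^ 2 ∧
      colour δ q₀ τ x = colour δ q₀ τ y ∧ colour δ q₀ τ y = colour δ q₀ τ z :=
  main δ q₀ τ r

end Pool.Agent.Results.MP_0f91f8_co.FibonacciAutomatic
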