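import Pool.Agent.U60.BM.Mult

set_option autoImplicit false

open Filter Topology

namespace Pool.Agent.Results.MP_0f91f8_co.MultiplicativeDigitFunctions

open Pool.Agent.U60.BM

/-- Let `f i`, `i` in a finite set, be `b`-multiplicative functions (no uniformity in the position
of the digits is assumed) with values in compact Hausdorff groups, not necessarily commutative, and
let `P i` be polynomials with natural coefficients. Let `c` be a colouring of the product of the
groups which is constant near the point `(f i (P i 0))`; this is no condition for finite groups.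
Then every finite set `A`, and so every Pythagorean triple, has arbitrarily large dilates `k A` on
which the colouring `n ↦ c (f i (P i n))` is constant. -/
theorem result {b : ℕ} (hb : 2 ≤ b) {ι : Type*} [Finite ι] {H : ι → Type*}
    [∀ i, Group (H i)] [∀ i, TopologicalSpace (H i)] [∀ i, IsTopologicalGroup (H i)]
    [∀ i, CompactSpace (H i)] [∀ i, T2Space (H i)] (f : ∀ i, ℕ → H i)
    (hf : ∀ i, BMul b (f i)) (P : ι → Polynomial ℕ) {C : Type*} (c : (∀ i, H i) → C)
    (hc : ∀ᶠ h in 𝓝 (fun i => f i ((P i).eval 0)), c h = c (fun i => f i ((P i).eval 0)))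
    (A : Finset ℕ) (N : ℕ) :
    ∃ k, N < k ∧
      (∀ a ∈ A, c (fun i => f i ((P i).eval (k * a))) = c (fun i => f i ((P i).eval 0))) ∧
      ∀ x ∈ A, ∀ y ∈ A, ∀ z ∈ A, x ^ 2 + y ^ 2 = z ^ 2 →
        (k * x) ^ 2 + (k * y) ^ 2 = (k * z) ^ 2 := by
  have h1 := hc
  rw [nhds_pi] at h1
  obtain ⟨I, -, U, hU, hsub⟩ := Filter.mem_pi.1 h1
  obtain ⟨k, hk, hk'⟩ := main_family hb f hf P U hU A N
  refine ⟨k, hk, fun a ha => hsub (fun i _ => hk' a ha i), fun x _ y _ z _ h => ?_⟩
  calc (k * x) ^ 2 + (k * y) ^ 2 = k ^ 2 * (x ^ 2 + y ^ 2) := by ring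
    _ = _ := by rw [h]; ring

end Pool.Agent.Results.MP_0f91f8_co.MultiplicativeDigitFunctions
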